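import Pool.Agent.Y478.WM.Conn

/-!
# MP_64e474_co: every graph of warmth at least 4 is a retract of a counterexample

The conjectured inequality `w(H) ≤ conn[N(H)] + 3` fails.  Let `R` be the reflexive folded 5-cube (16
vertices, all loops present).  For *every* finite graph `G` with an edge and with `w(G) ≥ 4`, the
product `H = R × G` is a finite loopless graph which contains `G` as an induced subgraph and retracts
onto `G` (so that `χ(H) = χ(G)`), whose warmth is exactly `4` and for which `conn[N(H)]` is
exactly `0`.  So `w(H) = conn[N(H)] + 4`.  As `w(K_n) ≥ 4` for `n ≥ 4`, there is a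
counterexample with every chromatic number `n ≥ 4`.

The starting result `FoldedCubeTimesK4` is about the single graph `R × K_4`, with the inequalities
`w ≥ 4` and `-1 ≤ conn ≤ 0` only.
-/

set_option autoImplicit false

namespace Pool.Agent.Results.MP_64e474_co.AllWarmFactors

open Topology Pool.Agent.Y478.WM Pool.Agent.H206R3.Clebsch

/-- `G` is an induced subgraph of the product. -/
def incl {W : Type} (G : SimpleGraph W) : G ↪g cubeTimes G where
  toFun a := (0, a)
  inj' := fun _ _ h => congrArg Prod.snd h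
  map_rel_iff' := ⟨fun h => h.2, fun h => ⟨R_refl 0, h⟩⟩

/-- The projection of the product to `G`. -/
def pr {W : Type} (G : SimpleGraph W) : cubeTimes G →g G where
  toFun := Prod.snd
  map_rel' := fun h => h.2

theorem colorable_iff {W : Type} (G : SimpleGraph W) (n : ℕ) :
    (cubeTimes G).Colorable n ↔ G.Colorable n :=
  ⟨fun ⟨c⟩ => ⟨c.comp (incl G).toHom⟩, fun ⟨c⟩ => ⟨c.comp (pr G)⟩⟩

/-- For every finite graph `G` with an edge and of warmth at least `4`, the product `H` of the
reflexive folded 5-cube with `G` contains `G` as an induced subgraph, onto which it retracts, has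
the same `n`-colourability as `G` for every `n`, has warmth exactly `4`, and its neighborhood complex
has connectivity exactly `0`; so `w(H) = conn[N(H)] + 4`.  For `n ≥ 4` the complete graph `K_n` is
such a graph `G`, which gives a counterexample with chromatic number `n`.  In particular the
inequality `w(H) ≤ conn[N(H)] + 3` fails. -/
theorem result :
    (∀ (W : Type) (_ : Fintype W) (G : SimpleGraph W), (∃ u v, G.Adj u v) → 4 ≤ warmth G →
      (∃ u v, (cubeTimes G).Adj u v) ∧
      (∃ (i : G ↪g cubeTimes G) (r : cubeTimes G →g G), ∀ a, r (i a) = a) ∧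
      (∀ n : ℕ, (cubeTimes G).Colorable n ↔ G.Colorable n) ∧
      warmth (cubeTimes G) = 4 ∧
      conn (realization (nbhdFaces (cubeTimes G))) = 0 ∧
      warmth (cubeTimes G) = conn (realization (nbhdFaces (cubeTimes G))) + 4) ∧
    (∀ n : ℕ, 4 ≤ n → ∃ (V : Type) (_ : Fintype V) (H : SimpleGraph V), (∃ u v, H.Adj u v) ∧
      H.chromaticNumber = n ∧ warmth H = 4 ∧ conn (realization (nbhdFaces H)) = 0 ∧
      ¬ warmth H ≤ conn (realization (nbhdFaces H)) + 3) ∧
    ¬ ∀ (V : Type) (_ : Fintype V) (H : SimpleGraph V), (∃ u v, H.Adj u v) →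
      warmth H ≤ conn (realization (nbhdFaces H)) + 3 := by
  have h43 : ¬ (4 : EReal) ≤ 3 := by
    intro h
    have h2 : ((4 : ℝ) : EReal) ≤ ((3 : ℝ) : EReal) := h
    rw [EReal.coe_le_coe_iff] at h2
    norm_num at h2
  have hA : ∀ (W : Type) (_ : Fintype W) (G : SimpleGraph W), (∃ u v, G.Adj u v) →
      4 ≤ warmth G →
      (∃ u v, (cubeTimes G).Adj u v) ∧
      (∃ (i : G ↪g cubeTimes G) (r : cubeTimes G →g G), ∀ a, r (i a) = a) ∧
      (∀ n : ℕ, (cubeTimes G).Colorable n ↔ G.Colorable n) ∧
      warmth (cubeTimes G) = 4 ∧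
      conn (realization (nbhdFaces (cubeTimes G))) = 0 ∧
      warmth (cubeTimes G) = conn (realization (nbhdFaces (cubeTimes G))) + 4 := by
    intro W _ G hE h4
    have hw := warmth_eq hE h4
    have hc := conn_eq hE (warm_of_four_le h4)
    obtain ⟨u, v, huv⟩ := hE
    refine ⟨⟨(0, u), (0, v), R_refl 0, huv⟩, ⟨incl G, pr G, fun a => rfl⟩, colorable_iff G, hw, hc,
      ?_⟩
    rw [hw, hc, zero_add]
  have hB : ∀ n : ℕ, 4 ≤ n → ∃ (V : Type) (_ : Fintype V) (H : SimpleGraph V),
      (∃ u v, H.Adj u v) ∧
      H.chromaticNumber = n ∧ warmth H = 4 ∧ conn (realization (nbhdFaces H)) = 0 ∧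
      ¬ warmth H ≤ conn (realization (nbhdFaces H)) + 3 := by
    intro n hn
    have hE : ∃ u v, (⊤ : SimpleGraph (Fin n)).Adj u v :=
      ⟨⟨0, by omega⟩, ⟨1, by omega⟩, by simp⟩
    obtain ⟨h1, -, h3, h4, h5, -⟩ := hA (Fin n) inferInstance ⊤ hE (four_le_top n hn)
    refine ⟨_, inferInstance, cubeTimes ⊤, h1, ?_, h4, h5, ?_⟩
    · refine le_antisymm ?_ ?_
      · refine SimpleGraph.Colorable.chromaticNumber_le ((h3 n).2 ?_)
        exact (SimpleGraph.colorable_of_fintype _).mono (by simp)
      · rw [SimpleGraph.le_chromaticNumber_iff_colorable]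
        intro m hm
        have := (h3 m).1 hm
        have h6 := this.chromaticNumber_le
        rw [SimpleGraph.chromaticNumber_top] at h6
        simpa using h6
    · rw [h4, h5, zero_add]
      exact h43
  refine ⟨hA, hB, ?_⟩
  intro hall
  obtain ⟨V, _, H, h1, -, -, -, h5⟩ := hB 4 le_rfl
  exact h5 (hall V _ H h1)

end Pool.Agent.Results.MP_64e474_co.AllWarmFactors
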